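import Pool.Agent.MP_66cee2_co.B82.All

/-!
Maps `ℝ^d → ℝ^n` that preserve unit distances preserve all distances when `d` is large and
`n ≤ (43 / 25) ^ d`.
-/

namespace Pool.Agent.MP_66cee2_co.Retired.BaseOld

theorem result : ∃ d₀ : ℕ, ∀ d n : ℕ, d₀ ≤ d → (n : ℝ) ≤ (43 / 25) ^ d →
    ∀ f : EuclideanSpace ℝ (Fin d) → EuclideanSpace ℝ (Fin n),
      (∀ x y, ‖x - y‖ = 1 → ‖f x - f y‖ = 1) → ∀ x y, ‖f x - f y‖ = ‖x - y‖ :=
  Pool.Agent.MP_66cee2_co.B82.sBase2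

end Pool.Agent.MP_66cee2_co.Retired.BaseOld
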