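import Pool.Agent.MP_66cee2_co.XJ.All
import Pool.Agent.MP_66cee2_co.XI.All
import Pool.Agent.MP_66cee2_co.XR.All
import Pool.Agent.MP_66cee2_co.XT.Main

/-!
Maps `ℝ^d → ℝ^n` that preserve unit distances preserve all distances when `d` is large and
`n ≤ c^d`.
-/

namespace Pool.Agent.MP_66cee2_co.Retired.ExponentialOld

open Pool.Agent.MP_66cee2_co

theorem result : ∃ c : ℝ, 1 < c ∧ ∃ d₀ : ℕ, ∀ d n : ℕ, d₀ ≤ d → (n : ℝ) ≤ c ^ d →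
    ∀ f : EuclideanSpace ℝ (Fin d) → EuclideanSpace ℝ (Fin n),
      (∀ x y, ‖x - y‖ = 1 → ‖f x - f y‖ = 1) → ∀ x y, ‖f x - f y‖ = ‖x - y‖ :=
  XT.sFinal X.sRPDAll (X.sM_of X.sJAll XI.sI_all)

end Pool.Agent.MP_66cee2_co.Retired.ExponentialOld
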