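import Pool.Agent.MP_66cee2_co.ME.Main

/-!
If a map `ℝ^d → ℝ^n`, `d ≥ 2`, preserves unit distances but not all distances, then so does a
Lebesgue measurable map with values in the closure of its range.
-/

namespace Pool.Agent.MP_66cee2_co.Retired.MeasurableOld

theorem result (d n : ℕ) (hd : 2 ≤ d)
    (f : EuclideanSpace ℝ (Fin d) → EuclideanSpace ℝ (Fin n))
    (hf : ∀ x y, ‖x - y‖ = 1 → ‖f x - f y‖ = 1) (hne : ∃ x y, ‖f x - f y‖ ≠ ‖x - y‖) :
    ∃ g : EuclideanSpace ℝ (Fin d) → EuclideanSpace ℝ (Fin n),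
      AEMeasurable g MeasureTheory.volume ∧ (∀ x, g x ∈ closure (Set.range f)) ∧
      (∀ x y, ‖x - y‖ = 1 → ‖g x - g y‖ = 1) ∧ ∃ x y, ‖g x - g y‖ ≠ ‖x - y‖ :=
  Pool.Agent.MP_66cee2_co.ME.main d n hd f hf hne

end Pool.Agent.MP_66cee2_co.Retired.MeasurableOld
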