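import Pool.Agent.MP_66cee2_co.P.Main

/-!
Maps `ℝ^2 → ℝ^3` that preserve unit distances preserve all distances.
-/

namespace Pool.Agent.MP_66cee2_co.Retired.PlaneOld

theorem result (f : EuclideanSpace ℝ (Fin 2) → EuclideanSpace ℝ (Fin 3))
    (hf : ∀ x y, ‖x - y‖ = 1 → ‖f x - f y‖ = 1) : ∀ x y, ‖f x - f y‖ = ‖x - y‖ :=
  Pool.Agent.MP_66cee2_co.P.allIso f hf

end Pool.Agent.MP_66cee2_co.Retired.PlaneOld
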