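import Pool.Agent.MP_66cee2_co.H44.Params

/-!
Maps `ℝ^d → ℝ^n` that preserve unit distances preserve all distances when `d ≥ 8` and
`7 n + 1 ≤ 8 d`.
-/

namespace Pool.Agent.MP_66cee2_co.Retired.RigidEight

open Module Pool.Agent.MP_66cee2_co.H44

theorem result (d n : ℕ) (hd : 8 ≤ d) (hn : 7 * n + 1 ≤ 8 * d)
    (f : EuclideanSpace ℝ (Fin d) → EuclideanSpace ℝ (Fin n))
    (hf : ∀ x y, ‖x - y‖ = 1 → ‖f x - f y‖ = 1) : ∀ x y, ‖f x - f y‖ = ‖x - y‖ := by
  obtain ⟨s, a, r, h1, h2, h3, h4, h5, h6, h7⟩ := params d hd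
  have hG : Gadget (EuclideanSpace ℝ (Fin d)) ((d - 1) / 7 + 1 + (2 ^ s - r))
      (d + 1 - (2 ^ s - r)) := by
    refine gadget s r (2 ^ s - r) a (d + 1 - (2 ^ s - r) - 2 * r * a) _ _ (by omega) h2 h1
      (by omega) ?_ (by omega) (by simp; omega)
    rwa [Nat.add_sub_cancel' h3]
  have h2' : (0 : ℝ) < √2 := by positivity
  have hs : √2 ^ 2 = (2 : ℝ) := Real.sq_sqrt (by norm_num)
  let g : EuclideanSpace ℝ (Fin d) → EuclideanSpace ℝ (Fin n) := fun x => √2 • f ((√2)⁻¹ • x)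
  have hg : Pres g := fun x y h => by
    have e : ‖x - y‖ = √2 := by rwa [← hs, sq_eq_sq₀ (norm_nonneg _) h2'.le] at h
    have := hf ((√2)⁻¹ • x) ((√2)⁻¹ • y) (by
      rw [← smul_sub, norm_smul, e, norm_inv, Real.norm_of_nonneg h2'.le, inv_mul_cancel₀ h2'.ne'])
    simp only [g]
    rw [← smul_sub, norm_smul, this, mul_one, Real.norm_of_nonneg h2'.le, hs]
  intro x y
  have := isometry_of_pres (m := (d - 1) / 7) hg hG (by simp; omega) (by simp; omega)
    (by simpa using h6) (by omega) (√2 • x) (√2 • y)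
  simp only [g, smul_smul, inv_mul_cancel₀ h2'.ne', one_smul] at this
  rw [← smul_sub, ← smul_sub, norm_smul, norm_smul] at this
  exact mul_left_cancel₀ (by simp) this

end Pool.Agent.MP_66cee2_co.Retired.RigidEight
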