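import Pool.Agent.MP_66cee2_co.P1.Four
import Pool.Agent.MP_66cee2_co.Retired.RigidEight

/-!
Maps `ℝ^d → ℝ^n` that preserve unit distances preserve all distances when `d ≥ 4` and
`n ≤ d + max 1 ((d - 1) / 7)`.
-/

namespace Pool.Agent.MP_66cee2_co.Retired.RigidFour

open Pool.Agent.MP_66cee2_co

theorem result (d n : ℕ) (hd : 4 ≤ d) (hn : n ≤ d + max 1 ((d - 1) / 7))
    (f : EuclideanSpace ℝ (Fin d) → EuclideanSpace ℝ (Fin n))
    (hf : ∀ x y, ‖x - y‖ = 1 → ‖f x - f y‖ = 1) : ∀ x y, ‖f x - f y‖ = ‖x - y‖ := by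
  by_cases h5 : n ≤ 5
  · exact P1.unit_of_pres (fun _ hg => P1.isometry_four hg (by simpa using hd)
      (by simpa using h5)) f hf
  by_cases h : n ≤ d + 1
  · exact P1.unit_of_pres (fun _ hg => P1.isometry_plus_one hg (by simp; omega)
      (by simpa using h)) f hf
  · exact Retired.RigidEight.result d n (by omega) (by omega) f hf

end Pool.Agent.MP_66cee2_co.Retired.RigidFour
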