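import Pool.Agent.MP_66cee2_co.F.Three

/-!
Maps `ℝ^d → ℝ^n` that preserve unit distances preserve all distances when `d ≥ 3` and
`n ≤ 3 d - 4`.
-/

namespace Pool.Agent.MP_66cee2_co.Retired.TripleOld

theorem result (d n : ℕ) (hd : 3 ≤ d) (hn : n + 4 ≤ 3 * d)
    (f : EuclideanSpace ℝ (Fin d) → EuclideanSpace ℝ (Fin n))
    (hf : ∀ x y, ‖x - y‖ = 1 → ‖f x - f y‖ = 1) : ∀ x y, ‖f x - f y‖ = ‖x - y‖ :=
  Pool.Agent.MP_66cee2_co.F.allIso3 d n hd hn f hf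

end Pool.Agent.MP_66cee2_co.Retired.TripleOld
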