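import Pool.Agent.MP_66cee2_co.H30U.Main

/-!
For all large `d` and all `n ≥ 2.62^d` there is a map `ℝ^d → ℝ^n` that preserves unit distances
but does not preserve all distances.
-/

namespace Pool.Agent.MP_66cee2_co.Retired.UpperOld262

theorem result : ∃ d₀ : ℕ, ∀ d n : ℕ, d₀ ≤ d → (131 / 50 : ℝ) ^ d ≤ n →
    ∃ f : EuclideanSpace ℝ (Fin d) → EuclideanSpace ℝ (Fin n),
      (∀ x y, ‖x - y‖ = 1 → ‖f x - f y‖ = 1) ∧ ¬ ∀ x y, ‖f x - f y‖ = ‖x - y‖ :=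
  Pool.Agent.MP_66cee2_co.H30U.upper

end Pool.Agent.MP_66cee2_co.Retired.UpperOld262
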